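import Pool.Agent.H65.D65.Main

/-! The classes: finite tree-width, countable, rayless. -/

namespace H65.D65

open Relation

universe u

theorem cs_of_preconnected {G : Gr.{u}} {S : Set G.V} (h : (G.G.induce S).Preconnected) :
    Cs G S := by
  intro x hx y hy
  have h1 := h ⟨x, hx⟩ ⟨y, hy⟩
  rw [SimpleGraph.reachable_iff_reflTransGen] at h1
  have h2 : ∀ z : S, ReflTransGen (G.G.induce S).Adj ⟨x, hx⟩ z →
      ReflTransGen (fun a b => G.G.Adj a b ∧ b ∈ S) x z.1 := by
    intro z hz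
    induction hz with
    | refl => exact ReflTransGen.refl
    | tail _ hbc ih => exact ih.tail ⟨hbc, Subtype.coe_prop _⟩
  exact h2 _ h1

theorem preconnected_of_cs {G : Gr.{u}} {S : Set G.V} (h : Cs G S) :
    (G.G.induce S).Preconnected := by
  rintro ⟨x, hx⟩ ⟨y, hy⟩
  exact (connected_of_cs ⟨x, hx⟩ h).preconnected _ _

theorem cn_of_connected {G : Gr.{u}} (h : G.G.Connected) : Cn G := by
  intro x y
  have h1 := h.preconnected x y
  rwa [SimpleGraph.reachable_iff_reflTransGen] at h1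

theorem connected_of_cn {G : Gr.{u}} (v : G.V) (h : Cn G) : G.G.Connected := by
  have : Nonempty G.V := ⟨v⟩
  have hp : G.G.Preconnected := by
    intro x y
    rw [SimpleGraph.reachable_iff_reflTransGen]
    exact h x y
  exact ⟨hp⟩

section JoinTree

variable {T : ℕ → Gr.{u}} {t : ∀ n, (T n).V}

/-- Walks of the join project to walks of a copy. -/
theorem proj_reach (p : ℕ × ℕ) (E : Set (Sym2 (join T t).V)) (E' : Set (Sym2 (T p.1).V))
    (hE : ∀ a b : (T p.1).V, s(a, b) ∈ E' →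
      s((some ⟨p, a⟩ : Option (Σ p : ℕ × ℕ, (T p.1).V)), some ⟨p, b⟩) ∈ E)
    (a b : (T p.1).V)
    (h : ((join T t).G.deleteEdges E).Reachable
      (some ⟨p, a⟩ : Option (Σ p : ℕ × ℕ, (T p.1).V)) (some ⟨p, b⟩)) :
    ((T p.1).G.deleteEdges E').Reachable a b := by
  rw [SimpleGraph.reachable_iff_reflTransGen] at h ⊢
  have h2 : ∀ z : Option (Σ p : ℕ × ℕ, (T p.1).V),
      ReflTransGen ((join T t).G.deleteEdges E).Adj (some ⟨p, a⟩) z →
      (∃ w, z = some ⟨p, w⟩ ∧ ReflTransGen ((T p.1).G.deleteEdges E').Adj a w) ∨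
      ((¬ ∃ w, z = some ⟨p, w⟩) ∧
        ReflTransGen ((T p.1).G.deleteEdges E').Adj a (t p.1)) := by
    intro z hz
    induction hz with
    | refl => exact Or.inl ⟨a, rfl, ReflTransGen.refl⟩
    | @tail b c _ hbc ih =>
      rw [SimpleGraph.deleteEdges_adj] at hbc
      obtain ⟨hbc, hnot⟩ := hbc
      rcases ih with ⟨w, rfl, hw⟩ | ⟨hn, hw⟩
      · rcases join_adj_some hbc with ⟨rfl, rfl⟩ | ⟨b, rfl, hb⟩
        · exact Or.inr ⟨(by rintro ⟨w, hw'⟩; cases hw'), hw⟩
        · refine Or.inl ⟨b, rfl, hw.tail ?_⟩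
          rw [SimpleGraph.deleteEdges_adj]
          exact ⟨hb, fun hmem => hnot (hE _ _ hmem)⟩
      · cases hbc with
        | left q =>
          by_cases hq : q = p
          · subst hq
            exact Or.inl ⟨t q.1, rfl, hw⟩
          · refine Or.inr ⟨?_, hw⟩
            rintro ⟨w, hw'⟩
            have := Option.some.inj hw'
            exact hq (congrArg Sigma.fst this)
        | right q => exact Or.inr ⟨(by rintro ⟨w, hw'⟩; cases hw'), hw⟩
        | inner q e1 e2 h =>
          refine Or.inr ⟨?_, hw⟩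
          rintro ⟨w, hw'⟩
          have h3 := Option.some.inj hw'
          have h4 : q = p := congrArg Sigma.fst h3
          subst h4
          exact hn ⟨e1, rfl⟩
  rcases h2 _ h with ⟨w, hw, h3⟩ | ⟨hn, _⟩
  · have h4 := Option.some.inj hw
    have h5 : b = w := by simpa using h4
    subst h5
    exact h3
  · exact absurd ⟨b, rfl⟩ hn

theorem join_acyclic (hT : ∀ n, (T n).G.IsAcyclic) : (join T t).G.IsAcyclic := by
  rw [SimpleGraph.isAcyclic_iff_forall_adj_isBridge]
  have hroot : ∀ p : ℕ × ℕ, ¬ ((join T t).G.deleteEdges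
      {s((some ⟨p, t p.1⟩ : Option (Σ p : ℕ × ℕ, (T p.1).V)), none)}).Reachable
      (some ⟨p, t p.1⟩ : Option (Σ p : ℕ × ℕ, (T p.1).V)) none := by
    intro p h
    rw [SimpleGraph.reachable_iff_reflTransGen] at h
    have h2 : ∀ z : Option (Σ p : ℕ × ℕ, (T p.1).V),
        ReflTransGen ((join T t).G.deleteEdges
        {s((some ⟨p, t p.1⟩ : Option (Σ p : ℕ × ℕ, (T p.1).V)), none)}).Adj
        (some ⟨p, t p.1⟩) z → ∃ w, z = some ⟨p, w⟩ := by
      intro z hz
      induction hz with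
      | refl => exact ⟨_, rfl⟩
      | @tail b c _ hbc ih =>
        rw [SimpleGraph.deleteEdges_adj] at hbc
        obtain ⟨hbc, hnot⟩ := hbc
        obtain ⟨w, rfl⟩ := ih
        rcases join_adj_some hbc with ⟨rfl, rfl⟩ | ⟨b, rfl, hb⟩
        · exact absurd (Set.mem_singleton _) hnot
        · exact ⟨b, rfl⟩
    obtain ⟨w, hw⟩ := h2 _ h
    cases hw
  intro v w hvw
  rw [SimpleGraph.isBridge_iff]
  have hvw' : JAdj T t v w := hvw
  cases hvw' with
  | left p =>
    intro h
    apply hroot p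
    have h1 := h.symm
    rwa [Sym2.eq_swap] at h1
  | right p => exact hroot p
  | inner p a b hab =>
    intro h
    have h1 := (SimpleGraph.isAcyclic_iff_forall_adj_isBridge.1 (hT p.1)) hab
    rw [SimpleGraph.isBridge_iff] at h1
    apply h1
    refine proj_reach p _ _ ?_ a b h
    intro a' b' hmem
    have hmem' : s(a', b') = s(a, b) := hmem
    rcases Sym2.eq_iff.1 hmem' with ⟨rfl, rfl⟩ | ⟨rfl, rfl⟩
    · exact rfl
    · exact Sym2.eq_swap

theorem join_isTree (hT : ∀ n, (T n).G.IsTree) : (join T t).G.IsTree :=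
  ⟨connected_of_cn (none : Option (Σ p : ℕ × ℕ, (T p.1).V))
    (cn_join (fun n => cn_of_connected (hT n).connected)),
    join_acyclic (fun n => (hT n).isAcyclic)⟩

end JoinTree

theorem ftw_join (P : ℕ → Gr.{u}) (r : ∀ n, (P n).V) (h : ∀ n, FiniteTreeWidth (P n)) :
    FiniteTreeWidth (join P r) := by
  choose T bag h1 h2 h3 h4 h5 using h
  choose t ht using fun n => h3 n (r n)
  let W := Option (Σ p : ℕ × ℕ, (P p.1).V)
  let bag' : Option (Σ p : ℕ × ℕ, (T p.1).V) → Set W := fun x =>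
    match x with
    | none => {none}
    | some ⟨p, x⟩ => ((fun v => (some ⟨p, v⟩ : W)) '' bag p.1 x) ∪
        {z | z = none ∧ x = t p.1}
  have hb1 : ∀ (p : ℕ × ℕ) (x : (T p.1).V) (q : ℕ × ℕ) (v : (P q.1).V),
      (some ⟨q, v⟩ : W) ∈ bag' (some ⟨p, x⟩) ↔ ∃ w, w ∈ bag p.1 x ∧
        (some ⟨p, w⟩ : W) = some ⟨q, v⟩ := by
    intro p x q v
    constructor
    · rintro (⟨w, hw, hw'⟩ | ⟨h, _⟩)
      · exact ⟨w, hw, hw'⟩
      · cases h
    · rintro ⟨w, hw, hw'⟩
      exact Or.inl ⟨w, hw, hw'⟩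
  refine ⟨join T t, bag', join_isTree h1, ?_, ?_, ?_, ?_⟩
  · rintro (_ | ⟨p, x⟩)
    · exact Set.finite_singleton _
    · refine ((h2 p.1 x).image _).union ((Set.finite_singleton (none : W)).subset ?_)
      rintro z ⟨hz, _⟩
      exact hz
  · rintro (_ | ⟨p, v⟩)
    · exact ⟨none, rfl⟩
    · obtain ⟨x, hx⟩ := h3 p.1 v
      exact ⟨some ⟨p, x⟩, Or.inl ⟨v, hx, rfl⟩⟩
  · intro v w hvw
    have hvw' : JAdj P r v w := hvw
    cases hvw' with
    | left p => exact ⟨some ⟨p, t p.1⟩, Or.inr ⟨rfl, rfl⟩, Or.inl ⟨_, ht p.1, rfl⟩⟩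
    | right p => exact ⟨some ⟨p, t p.1⟩, Or.inl ⟨_, ht p.1, rfl⟩, Or.inr ⟨rfl, rfl⟩⟩
    | inner p a b hab =>
      obtain ⟨x, hx, hx'⟩ := h4 p.1 a b hab
      exact ⟨some ⟨p, x⟩, Or.inl ⟨a, hx, rfl⟩, Or.inl ⟨b, hx', rfl⟩⟩
  · rintro (_ | ⟨q, v⟩)
    · apply preconnected_of_cs
      have hcase : ∀ x : Option (Σ p : ℕ × ℕ, (T p.1).V), (none : W) ∈ bag' x →
          x = none ∨ ∃ p, x = some ⟨p, t p.1⟩ := by
        rintro (_ | ⟨p, x⟩) hx
        · exact Or.inl rfl
        · rcases hx with ⟨w, _, hw⟩ | ⟨_, hx⟩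
          · cases hw
          · subst hx
            exact Or.inr ⟨p, rfl⟩
      have hto : ∀ x : Option (Σ p : ℕ × ℕ, (T p.1).V), (none : W) ∈ bag' x →
          ReflTransGen (fun a b => (join T t).G.Adj a b ∧ b ∈ {x | (none : W) ∈ bag' x})
            x (none : Option (Σ p : ℕ × ℕ, (T p.1).V)) := by
        intro x hx
        rcases hcase x hx with rfl | ⟨p, rfl⟩
        · exact ReflTransGen.refl
        · exact ReflTransGen.single ⟨JAdj.right p, rfl⟩
      have hfrom : ∀ x : Option (Σ p : ℕ × ℕ, (T p.1).V), (none : W) ∈ bag' x →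
          ReflTransGen (fun a b => (join T t).G.Adj a b ∧ b ∈ {x | (none : W) ∈ bag' x})
            (none : Option (Σ p : ℕ × ℕ, (T p.1).V)) x := by
        intro x hx
        rcases hcase x hx with rfl | ⟨p, rfl⟩
        · exact ReflTransGen.refl
        · exact ReflTransGen.single ⟨JAdj.left p, hx⟩
      intro x hx y hy
      exact (hto x hx).trans (hfrom y hy)
    · apply preconnected_of_cs
      have hq : ∀ x : Option (Σ p : ℕ × ℕ, (T p.1).V), (some ⟨q, v⟩ : W) ∈ bag' x →
          ∃ y, x = some ⟨q, y⟩ ∧ v ∈ bag q.1 y := by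
        rintro (_ | ⟨p, x⟩) hx
        · cases hx
        · obtain ⟨w, hw, hw'⟩ := (hb1 p x q v).1 hx
          have h3 := Option.some.inj hw'
          have h4 : p = q := congrArg Sigma.fst h3
          subst h4
          have h5 : w = v := by simpa using h3
          subst h5
          exact ⟨x, rfl, hw⟩
      intro x hx y hy
      obtain ⟨x', rfl, hx'⟩ := hq x hx
      obtain ⟨y', rfl, hy'⟩ := hq y hy
      have h6 := cs_of_preconnected (h5 q.1 v) x' hx' y' hy'
      clear hy hy'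
      induction h6 with
      | refl => exact ReflTransGen.refl
      | tail _ hbc ih =>
        exact ih.tail ⟨JAdj.inner q _ _ hbc.1, Or.inl ⟨v, hbc.2, rfl⟩⟩

theorem ftw_cone (G : Gr.{u}) (h : FiniteTreeWidth G) : FiniteTreeWidth (cone G) := by
  obtain ⟨T, bag, h1, h2, h3, h4, h5⟩ := h
  have hne : ∃ t0 : T.V, True := by
    obtain ⟨t0⟩ := h1.connected.nonempty
    exact ⟨t0, trivial⟩
  obtain ⟨t0, _⟩ := hne
  refine ⟨T, fun t => insert none (some '' bag t), h1, ?_, ?_, ?_, ?_⟩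
  · intro t
    exact ((h2 t).image _).insert _
  · rintro (_ | v)
    · exact ⟨t0, Or.inl rfl⟩
    · obtain ⟨t, ht⟩ := h3 v
      exact ⟨t, Or.inr ⟨v, ht, rfl⟩⟩
  · rintro (_ | v) (_ | w) hvw
    · exact absurd hvw id
    · obtain ⟨t, ht⟩ := h3 w
      exact ⟨t, Or.inl rfl, Or.inr ⟨w, ht, rfl⟩⟩
    · obtain ⟨t, ht⟩ := h3 v
      exact ⟨t, Or.inr ⟨v, ht, rfl⟩, Or.inl rfl⟩
    · obtain ⟨t, ht, ht'⟩ := h4 v w hvw
      exact ⟨t, Or.inr ⟨v, ht, rfl⟩, Or.inr ⟨w, ht', rfl⟩⟩
  · rintro (_ | v)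
    · apply preconnected_of_cs
      intro x _ y _
      have h6 := cn_of_connected h1.connected x y
      induction h6 with
      | refl => exact ReflTransGen.refl
      | tail _ hbc ih => exact (ih (Or.inl rfl)).tail ⟨hbc, Or.inl rfl⟩
    · have hs : {t | (some v : Option G.V) ∈ (insert none (some '' bag t) :
          Set (Option G.V))} = {t | v ∈ bag t} := by
        ext t
        constructor
        · rintro (h | ⟨w, hw, hw'⟩)
          · cases h
          · cases hw'
            exact hw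
        · intro h
          exact Or.inr ⟨v, h, rfl⟩
      have h6 := h5 v
      rw [← hs] at h6
      exact h6

theorem closed_ftw : Closed FiniteTreeWidth.{u} := ⟨ftw_cone, ftw_join⟩

theorem closed_countable : Closed IsCountable.{u} := by
  refine ⟨?_, ?_⟩
  · intro G hG
    have : Countable G.V := hG
    exact (inferInstance : Countable (Option G.V))
  · intro P r hP
    have : ∀ p : ℕ × ℕ, Countable (P p.1).V := fun p => hP p.1
    exact (inferInstance : Countable (Option (Σ p : ℕ × ℕ, (P p.1).V)))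

theorem rayless_cone (G : Gr.{u}) (h : Rayless G) : Rayless (cone G) := by
  rintro ⟨f, hf, ha⟩
  have hex : ∃ N, ∀ n, N ≤ n → f n ≠ (none : Option G.V) := by
    by_cases hN : ∃ N, f N = (none : Option G.V)
    · obtain ⟨N, hN⟩ := hN
      refine ⟨N + 1, fun n hn h0 => ?_⟩
      have := hf (h0.trans hN.symm)
      omega
    · exact ⟨0, fun n _ h0 => hN ⟨n, h0⟩⟩
  obtain ⟨N, hN⟩ := hex
  have hsome : ∀ n, ∃ v, f (N + n) = (some v : Option G.V) := by
    intro n
    rcases hfn : f (N + n) with _ | v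
    · exact absurd hfn (hN _ (by omega))
    · exact ⟨v, rfl⟩
  choose g hg using hsome
  refine h ⟨g, ?_, ?_⟩
  · intro a b hab
    have h1 : f (N + a) = f (N + b) := by rw [hg, hg, hab]
    have := hf h1
    omega
  · intro n
    have h1 := ha (N + n)
    have h2 : N + n + 1 = N + (n + 1) := by omega
    rw [h2, hg, hg] at h1
    exact h1

theorem rayless_join (P : ℕ → Gr.{u}) (r : ∀ n, (P n).V) (h : ∀ n, Rayless (P n)) :
    Rayless (join P r) := by
  rintro ⟨f, hf, ha⟩
  have hex : ∃ N, ∀ n, N ≤ n → f n ≠ (none : Option (Σ p : ℕ × ℕ, (P p.1).V)) := by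
    by_cases hN : ∃ N, f N = (none : Option (Σ p : ℕ × ℕ, (P p.1).V))
    · obtain ⟨N, hN⟩ := hN
      refine ⟨N + 1, fun n hn h0 => ?_⟩
      have := hf (h0.trans hN.symm)
      omega
    · exact ⟨0, fun n _ h0 => hN ⟨n, h0⟩⟩
  obtain ⟨N, hN⟩ := hex
  obtain ⟨p, a0, hp⟩ : ∃ p a, f N = (some ⟨p, a⟩ : Option (Σ p : ℕ × ℕ, (P p.1).V)) := by
    rcases hfn : f N with _ | ⟨p, a⟩
    · exact absurd hfn (hN _ le_rfl)
    · exact ⟨p, a, rfl⟩
  have hsome : ∀ n, ∃ v, f (N + n) = (some ⟨p, v⟩ : Option (Σ p : ℕ × ℕ, (P p.1).V)) := by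
    intro n
    induction n with
    | zero => exact ⟨a0, hp⟩
    | succ n ih =>
      obtain ⟨v, hv⟩ := ih
      have h1 := ha (N + n)
      rw [hv] at h1
      rcases join_adj_some h1 with ⟨h2, _⟩ | ⟨b, h2, _⟩
      · exact absurd h2 (hN _ (by omega))
      · exact ⟨b, h2⟩
  choose g hg using hsome
  refine h p.1 ⟨g, ?_, ?_⟩
  · intro a b hab
    have h1 : f (N + a) = f (N + b) := by rw [hg, hg, hab]
    have := hf h1
    omega
  · intro n
    have h1 := ha (N + n)
    have h2 : N + n + 1 = N + (n + 1) := by omega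
    rw [h2, hg, hg] at h1
    rcases join_adj_some h1 with ⟨h3, _⟩ | ⟨b, h3, h4⟩
    · cases h3
    · have h5 : g (n + 1) = b := by
        have := Option.some.inj h3
        simpa using this
      rw [h5]
      exact h4

theorem closed_and {C D : Gr.{u} → Prop} (hC : Closed C) (hD : Closed D) :
    Closed (fun G => C G ∧ D G) :=
  ⟨fun G h => ⟨hC.cone G h.1, hD.cone G h.2⟩,
    fun P r h => ⟨hC.join P r (fun n => (h n).1), hD.join P r (fun n => (h n).2)⟩⟩

theorem closed_rayless : Closed Rayless.{u} := ⟨rayless_cone, rayless_join⟩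

theorem closed_small : Closed Small.{u} :=
  closed_and closed_ftw (closed_and closed_countable closed_rayless)

theorem small_of_finite (G : Gr.{u}) (h : Finite G.V) : Small G := by
  refine ⟨?_, ?_, ?_⟩
  · refine ⟨⟨PUnit, ⊥⟩, fun _ => Set.univ, ?_, ?_, ?_, ?_, ?_⟩
    · exact SimpleGraph.IsTree.of_subsingleton
    · intro _
      exact Set.toFinite _
    · intro v
      exact ⟨PUnit.unit, trivial⟩
    · intro v w _
      exact ⟨PUnit.unit, trivial, trivial⟩
    · rintro v ⟨x, hx⟩ ⟨y, hy⟩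
      have : (⟨x, hx⟩ : {t : PUnit | v ∈ Set.univ}) = ⟨y, hy⟩ := by
        apply Subtype.ext
        exact Subsingleton.elim _ _
      rw [this]
  · exact (inferInstance : Countable G.V)
  · rintro ⟨f, hf, _⟩
    exact not_injective_infinite_finite f hf

theorem bqo_mono {C D : Gr.{u} → Prop} (h : ∀ G, C G → D G) (hD : BQO D) : BQO C :=
  fun f hf hloc => hD f (fun X => h _ (hf X)) hloc

theorem wqo_mono {C D : Gr.{u} → Prop} (h : ∀ G, C G → D G) (hD : WQO D) : WQO C :=
  fun f hf => hD f (fun X => h _ (hf X))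

end H65.D65
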