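import Mathlib

/-! Graphs of any cardinality, minors, finite tree-width, well- and
better-quasi-ordering (problem MP_d65884_co). -/

namespace H65.D65

universe u

/-- A simple graph of any cardinality. -/
structure Gr : Type (u + 1) where
  V : Type u
  G : SimpleGraph V

/-- `H` is a minor of `G`: there are pairwise disjoint nonempty connected branch sets
`B h` in `G` such that adjacent vertices of `H` have branch sets joined by an edge. -/
def IsMinor (H G : Gr.{u}) : Prop :=
  ∃ B : H.V → Set G.V, (∀ h, (B h).Nonempty) ∧ (∀ h, (G.G.induce (B h)).Connected) ∧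
    (∀ h h', h ≠ h' → Disjoint (B h) (B h')) ∧
    (∀ h h', H.G.Adj h h' → ∃ x ∈ B h, ∃ y ∈ B h', G.G.Adj x y)

/-- `G` has a tree-decomposition all of whose parts are finite. -/
def FiniteTreeWidth (G : Gr.{u}) : Prop :=
  ∃ (T : Gr.{u}) (bag : T.V → Set G.V), T.G.IsTree ∧ (∀ t, (bag t).Finite) ∧
    (∀ v, ∃ t, v ∈ bag t) ∧
    (∀ v w, G.G.Adj v w → ∃ t, v ∈ bag t ∧ w ∈ bag t) ∧
    (∀ v, (T.G.induce {t | v ∈ bag t}).Preconnected)

/-- No ray (one-way infinite path). -/
def Rayless (G : Gr.{u}) : Prop :=
  ¬ ∃ f : ℕ → G.V, Function.Injective f ∧ ∀ n, G.G.Adj (f n) (f (n + 1))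

/-- The class `C` is well-quasi-ordered under minors. -/
def WQO (C : Gr.{u} → Prop) : Prop :=
  ∀ G : ℕ → Gr.{u}, (∀ n, C (G n)) → ∃ i j, i < j ∧ IsMinor (G i) (G j)

/-- The infinite subsets of `ℕ`, given by their increasing enumerations. -/
def InfSet : Type := {X : ℕ → ℕ // StrictMono X}

/-- `X` without its least element. -/
def InfSet.tail (X : InfSet) : InfSet :=
  ⟨fun n => X.1 (n + 1), fun _ _ h => X.2 (Nat.succ_lt_succ h)⟩

/-- The class `C` is better-quasi-ordered under minors: for every locally constant map
from the infinite subsets of `ℕ` to `C` there is `X` such that the value at `X` is a minor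
of the value at `X` without its least element. -/
def BQO (C : Gr.{u} → Prop) : Prop :=
  ∀ f : InfSet → Gr.{u}, (∀ X, C (f X)) →
    (∀ X : InfSet, ∃ n, ∀ Y : InfSet, (∀ i < n, Y.1 i = X.1 i) → f Y = f X) →
    ∃ X : InfSet, IsMinor (f X) (f X.tail)

/-- `G` with a new dominating vertex. -/
def cone (G : Gr.{u}) : Gr.{u} where
  V := Option G.V
  G :=
    { Adj := fun x y =>
        match x, y with
        | none, none => False
        | none, some _ => True
        | some _, none => True
        | some a, some b => G.G.Adj a b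
      symm := ⟨by
        rintro (_ | a) (_ | b) h
        · exact h
        · trivial
        · trivial
        · exact SimpleGraph.Adj.symm (G := G.G) h⟩
      loopless := ⟨by
        rintro (_ | a) h
        · exact h
        · exact G.G.loopless.irrefl a h⟩ }

/-- Adjacency of the root join. -/
inductive JAdj (P : ℕ → Gr.{u}) (r : ∀ n, (P n).V) :
    Option (Σ p : ℕ × ℕ, (P p.1).V) → Option (Σ p : ℕ × ℕ, (P p.1).V) → Prop
  | left (p : ℕ × ℕ) : JAdj P r none (some ⟨p, r p.1⟩)
  | right (p : ℕ × ℕ) : JAdj P r (some ⟨p, r p.1⟩) none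
  | inner (p : ℕ × ℕ) (a b : (P p.1).V) (h : (P p.1).G.Adj a b) :
      JAdj P r (some ⟨p, a⟩) (some ⟨p, b⟩)

theorem JAdj.symm {P : ℕ → Gr.{u}} {r : ∀ n, (P n).V} {x y} (h : JAdj P r x y) :
    JAdj P r y x := by
  cases h with
  | left p => exact JAdj.right p
  | right p => exact JAdj.left p
  | inner p a b h => exact JAdj.inner p b a h.symm

theorem JAdj.irrefl {P : ℕ → Gr.{u}} {r : ∀ n, (P n).V} (x) (h : JAdj P r x x) : False := by
  generalize hy : x = y at h
  rw [← hy] at h
  have : ∀ a b, JAdj P r a b → a = b → False := by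
    intro a b hab
    cases hab with
    | left p => intro h; cases h
    | right p => intro h; cases h
    | inner p a b hh =>
      intro h
      have h1 : a = b := by
        have := Option.some.inj h
        simpa using this
      exact hh.ne h1
  exact this x x h rfl

/-- The root join: infinitely many copies of every `P n`, and a new vertex joined to the
root `r n` in each of the copies. -/
def join (P : ℕ → Gr.{u}) (r : ∀ n, (P n).V) : Gr.{u} where
  V := Option (Σ p : ℕ × ℕ, (P p.1).V)
  G :=
    { Adj := JAdj P r
      symm := ⟨fun _ _ h => h.symm⟩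
      loopless := ⟨fun x h => JAdj.irrefl x h⟩ }

/-- The class `C` is closed under adding a dominating vertex and under root joins. -/
structure Closed (C : Gr.{u} → Prop) : Prop where
  cone : ∀ G, C G → C (cone G)
  join : ∀ (P : ℕ → Gr.{u}) (r : ∀ n, (P n).V), (∀ n, C (P n)) → C (join P r)

/-- The class of countable graphs. -/
def IsCountable (G : Gr.{u}) : Prop := Countable G.V

/-- Countable rayless graphs of finite tree-width. -/
def Small (G : Gr.{u}) : Prop := FiniteTreeWidth G ∧ IsCountable G ∧ Rayless G

end H65.D65
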