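import Pool.Agent.H65.D65.Minor

/-! Minors of root joins. -/

namespace H65.D65

open Relation

universe u

variable {Q : ℕ → Gr.{u}} {s : ∀ n, (Q n).V}

/-- The part of a connected set in one copy is connected. -/
theorem cs_pull {S : Set (join Q s).V} (hS : Cs (join Q s) S) (p : ℕ × ℕ) :
    Cs (Q p.1) {a | (some ⟨p, a⟩ : Option (Σ p : ℕ × ℕ, (Q p.1).V)) ∈ S} := by
  intro x hx y hy
  have h1 := hS _ hx _ hy
  have h2 : ∀ z : Option (Σ p : ℕ × ℕ, (Q p.1).V),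
      ReflTransGen (fun a b => (join Q s).G.Adj a b ∧ b ∈ S) (some ⟨p, x⟩) z →
      (∃ w, z = some ⟨p, w⟩ ∧ ReflTransGen (fun a b => (Q p.1).G.Adj a b ∧
        b ∈ {a | (some ⟨p, a⟩ : Option (Σ p : ℕ × ℕ, (Q p.1).V)) ∈ S}) x w) ∨
      ((¬ ∃ w, z = some ⟨p, w⟩) ∧ ReflTransGen (fun a b => (Q p.1).G.Adj a b ∧
        b ∈ {a | (some ⟨p, a⟩ : Option (Σ p : ℕ × ℕ, (Q p.1).V)) ∈ S}) x (s p.1)) := by
    intro z hz
    induction hz with
    | refl => exact Or.inl ⟨x, rfl, ReflTransGen.refl⟩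
    | @tail b c _ hbc ih =>
      obtain ⟨hbc, hc⟩ := hbc
      rcases ih with ⟨w, rfl, hw⟩ | ⟨hn, hw⟩
      · rcases join_adj_some hbc with ⟨rfl, rfl⟩ | ⟨b, rfl, hb⟩
        · exact Or.inr ⟨(by rintro ⟨w, hw'⟩; cases hw'), hw⟩
        · exact Or.inl ⟨b, rfl, hw.tail ⟨hb, hc⟩⟩
      · cases hbc with
        | left q =>
          by_cases hq : q = p
          · subst hq
            exact Or.inl ⟨s q.1, rfl, hw⟩
          · refine Or.inr ⟨?_, hw⟩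
            rintro ⟨w, hw'⟩
            have := Option.some.inj hw'
            exact hq (congrArg Sigma.fst this)
        | right q => exact Or.inr ⟨(by rintro ⟨w, hw'⟩; cases hw'), hw⟩
        | inner q a b h =>
          refine Or.inr ⟨?_, hw⟩
          rintro ⟨w, hw'⟩
          have h3 := Option.some.inj hw'
          have h4 : q = p := congrArg Sigma.fst h3
          subst h4
          exact hn ⟨a, rfl⟩
  rcases h2 _ h1 with ⟨w, hw, h3⟩ | ⟨hn, _⟩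
  · have h4 := Option.some.inj hw
    have h5 : y = w := by simpa using h4
    subst h5
    exact h3
  · exact absurd ⟨y, rfl⟩ hn

/-- A connected set containing the new vertex and meeting a copy contains its root. -/
theorem root_mem {S : Set (join Q s).V} (hS : Cs (join Q s) S) {p : ℕ × ℕ} {a : (Q p.1).V}
    (ha : (some ⟨p, a⟩ : Option (Σ p : ℕ × ℕ, (Q p.1).V)) ∈ S)
    (hn : (none : Option (Σ p : ℕ × ℕ, (Q p.1).V)) ∈ S) :
    (some ⟨p, s p.1⟩ : Option (Σ p : ℕ × ℕ, (Q p.1).V)) ∈ S := by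
  have h1 := hS _ ha _ hn
  have h2 : ∀ z : Option (Σ p : ℕ × ℕ, (Q p.1).V),
      ReflTransGen (fun a b => (join Q s).G.Adj a b ∧ b ∈ S) (some ⟨p, a⟩) z →
      (∃ w, z = some ⟨p, w⟩ ∧ z ∈ S) ∨
        (some ⟨p, s p.1⟩ : Option (Σ p : ℕ × ℕ, (Q p.1).V)) ∈ S := by
    intro z hz
    induction hz with
    | refl => exact Or.inl ⟨a, rfl, ha⟩
    | @tail b c _ hbc ih =>
      obtain ⟨hbc, hc⟩ := hbc
      rcases ih with ⟨w, rfl, hw⟩ | h
      · rcases join_adj_some hbc with ⟨rfl, rfl⟩ | ⟨b, rfl, hb⟩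
        · exact Or.inr hw
        · exact Or.inl ⟨b, rfl, hc⟩
      · exact Or.inr h
  rcases h2 _ h1 with ⟨w, hw, _⟩ | h
  · cases hw
  · exact h

/-- A connected set avoiding the new vertex lies in one copy. -/
theorem comp_const {S : Set (join Q s).V} (hS : Cs (join Q s) S) {p : ℕ × ℕ} {a : (Q p.1).V}
    (ha : (some ⟨p, a⟩ : Option (Σ p : ℕ × ℕ, (Q p.1).V)) ∈ S)
    (hn : (none : Option (Σ p : ℕ × ℕ, (Q p.1).V)) ∉ S) :
    ∀ z ∈ S, ∃ w, z = (some ⟨p, w⟩ : Option (Σ p : ℕ × ℕ, (Q p.1).V)) := by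
  intro z hz
  have h1 := hS _ ha _ hz
  have h2 : ∀ z : Option (Σ p : ℕ × ℕ, (Q p.1).V),
      ReflTransGen (fun a b => (join Q s).G.Adj a b ∧ b ∈ S) (some ⟨p, a⟩) z →
      ∃ w, z = some ⟨p, w⟩ := by
    intro z hz
    induction hz with
    | refl => exact ⟨a, rfl⟩
    | @tail b c _ hbc ih =>
      obtain ⟨hbc, hc⟩ := hbc
      obtain ⟨w, rfl⟩ := ih
      rcases join_adj_some hbc with ⟨rfl, rfl⟩ | ⟨b, rfl, hb⟩
      · exact absurd hc hn
      · exact ⟨b, rfl⟩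
  exact h2 _ h1

/-- Pulling back a family of branch sets to one copy. -/
theorem pull {H : Gr.{u}} (p : ℕ × ℕ) (B : H.V → Set (join Q s).V)
    (ne : ∀ v, ∃ a, (some ⟨p, a⟩ : Option (Σ p : ℕ × ℕ, (Q p.1).V)) ∈ B v)
    (cs : ∀ v, Cs (join Q s) (B v))
    (disj : ∀ v w x, x ∈ B v → x ∈ B w → v = w)
    (adj : ∀ v w, H.G.Adj v w → ∃ a b,
      (some ⟨p, a⟩ : Option (Σ p : ℕ × ℕ, (Q p.1).V)) ∈ B v ∧
      (some ⟨p, b⟩ : Option (Σ p : ℕ × ℕ, (Q p.1).V)) ∈ B w ∧ (Q p.1).G.Adj a b) :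
    IsMinor H (Q p.1) := by
  rw [isMinor_iff]
  refine ⟨⟨fun v => {a | (some ⟨p, a⟩ : Option (Σ p : ℕ × ℕ, (Q p.1).V)) ∈ B v}, ne,
    fun v => cs_pull (cs v) p, fun v w x hv hw => disj v w _ hv hw, ?_⟩⟩
  intro v w hvw
  obtain ⟨a, b, ha, hb, hab⟩ := adj v w hvw
  exact ⟨a, ha, b, hb, hab⟩

/-- If a root join is a minor of a root join, then every one of the joined graphs is a
minor of one of the graphs joined in the other. -/
theorem join_join {P : ℕ → Gr.{u}} {r : ∀ n, (P n).V} (hP : ∀ n, Cn (P n))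
    (h : IsMinor (join P r) (join Q s)) (a : ℕ) : ∃ b, IsMinor (P a) (Q b) := by
  rw [isMinor_iff] at h
  obtain ⟨M⟩ := h
  -- a copy of `P a` whose branch sets avoid the new vertex
  have hc : ∃ c : ℕ, ∀ v : (P a).V, (none : Option (Σ p : ℕ × ℕ, (Q p.1).V)) ∉
      M.B (some ⟨(a, c), v⟩ : Option (Σ p : ℕ × ℕ, (P p.1).V)) := by
    by_contra hcon
    have h0 := fun c => not_forall.1 (not_exists.1 hcon c)
    obtain ⟨v0, hv0⟩ := h0 0
    obtain ⟨v1, hv1⟩ := h0 1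
    have h3 := M.disj _ _ _ (not_not.1 hv0) (not_not.1 hv1)
    have h4 := congrArg Sigma.fst (Option.some.inj h3)
    simp at h4
  obtain ⟨c, hc⟩ := hc
  obtain ⟨z, hz⟩ := M.ne (some ⟨(a, c), r a⟩ : Option (Σ p : ℕ × ℕ, (P p.1).V))
  obtain ⟨p, e, rfl⟩ : ∃ p e, z = (some ⟨p, e⟩ : Option (Σ p : ℕ × ℕ, (Q p.1).V)) := by
    rcases z with _ | ⟨p, e⟩
    · exact absurd hz (hc _)
    · exact ⟨p, e, rfl⟩
  -- all branch sets of this copy lie in the copy `p`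
  have hall : ∀ v : (P a).V, ∃ w, (some ⟨p, w⟩ : Option (Σ p : ℕ × ℕ, (Q p.1).V)) ∈
      M.B (some ⟨(a, c), v⟩ : Option (Σ p : ℕ × ℕ, (P p.1).V)) := by
    intro v
    have h5 := hP a (r a) v
    induction h5 with
    | refl => exact ⟨e, hz⟩
    | @tail b d _ hbd ih =>
      obtain ⟨w, hw⟩ := ih
      have h6 : (join P r).G.Adj (some ⟨(a, c), b⟩ : Option (Σ p : ℕ × ℕ, (P p.1).V))
          (some ⟨(a, c), d⟩ : Option (Σ p : ℕ × ℕ, (P p.1).V)) := JAdj.inner (a, c) b d hbd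
      obtain ⟨x, hx, y, hy, hxy⟩ := M.adj _ _ h6
      obtain ⟨x', rfl⟩ := comp_const (M.cs _) hw (hc b) x hx
      rcases join_adj_some hxy with ⟨rfl, _⟩ | ⟨y', rfl, _⟩
      · exact absurd hy (hc d)
      · exact ⟨y', hy⟩
  refine ⟨p.1, pull p (fun v => M.B (some ⟨(a, c), v⟩ : Option (Σ p : ℕ × ℕ, (P p.1).V)))
    hall (fun v => M.cs _) ?_ ?_⟩
  · intro v w x hv hw
    have h3 := Option.some.inj (M.disj _ _ _ hv hw)
    simpa using h3
  · intro v w hvw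
    have h6 : (join P r).G.Adj (some ⟨(a, c), v⟩ : Option (Σ p : ℕ × ℕ, (P p.1).V))
          (some ⟨(a, c), w⟩ : Option (Σ p : ℕ × ℕ, (P p.1).V)) := JAdj.inner (a, c) v w hvw
    obtain ⟨x, hx, y, hy, hxy⟩ := M.adj _ _ h6
    obtain ⟨v', hv'⟩ := hall v
    obtain ⟨x', rfl⟩ := comp_const (M.cs _) hv' (hc v) x hx
    rcases join_adj_some hxy with ⟨rfl, _⟩ | ⟨y', rfl, hxy'⟩
    · exact absurd hy (hc w)
    · exact ⟨x', y', hx, hy, hxy'⟩

/-- A strong form of 2-connectedness. -/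
def Hub2 (K : Gr.{u}) : Prop :=
  ∀ v0 : K.V, (∃ h, h ≠ v0 ∧ ∀ v, v ≠ v0 → v ≠ h → K.G.Adj h v) ∧
    ∃ v1 v2, v1 ≠ v2 ∧ K.G.Adj v0 v1 ∧ K.G.Adj v0 v2

/-- A 2-connected minor of a root join is a minor of one of the joined graphs. -/
theorem hub_join {K : Gr.{u}} (hK : Hub2 K) (k0 : K.V) (h : IsMinor K (join Q s)) :
    ∃ b, IsMinor K (Q b) := by
  rw [isMinor_iff] at h
  obtain ⟨M⟩ := h
  by_cases hA : ∃ v0, (none : Option (Σ p : ℕ × ℕ, (Q p.1).V)) ∈ M.B v0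
  · obtain ⟨v0, hv0⟩ := hA
    have hav : ∀ v, v ≠ v0 → (none : Option (Σ p : ℕ × ℕ, (Q p.1).V)) ∉ M.B v :=
      fun v hv hm => hv (M.disj _ _ _ hm hv0)
    obtain ⟨⟨h, hh0, hh⟩, v1, v2, h12, h01, h02⟩ := hK v0
    obtain ⟨z, hz⟩ := M.ne h
    obtain ⟨p, e, rfl⟩ : ∃ p e, z = (some ⟨p, e⟩ : Option (Σ p : ℕ × ℕ, (Q p.1).V)) := by
      rcases z with _ | ⟨p, e⟩
      · exact absurd hz (hav h hh0)
      · exact ⟨p, e, rfl⟩
    have hall : ∀ v, v ≠ v0 →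
        ∃ w, (some ⟨p, w⟩ : Option (Σ p : ℕ × ℕ, (Q p.1).V)) ∈ M.B v := by
      intro v hv
      by_cases hvh : v = h
      · subst hvh
        exact ⟨e, hz⟩
      · obtain ⟨x, hx, y, hy, hxy⟩ := M.adj _ _ (hh v hv hvh)
        obtain ⟨x', rfl⟩ := comp_const (M.cs _) hz (hav h hh0) x hx
        rcases join_adj_some hxy with ⟨rfl, _⟩ | ⟨y', rfl, _⟩
        · exact absurd hy (hav v hv)
        · exact ⟨y', hy⟩
    have hin : ∀ v, v ≠ v0 → ∀ y ∈ M.B v,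
        ∃ w, y = (some ⟨p, w⟩ : Option (Σ p : ℕ × ℕ, (Q p.1).V)) := by
      intro v hv y hy
      obtain ⟨w, hw⟩ := hall v hv
      exact comp_const (M.cs _) hw (hav v hv) y hy
    have hne1 : v1 ≠ v0 := fun h => K.G.loopless.irrefl _ (h ▸ h01)
    have hne2 : v2 ≠ v0 := fun h => K.G.loopless.irrefl _ (h ▸ h02)
    have hroot : (some ⟨p, s p.1⟩ : Option (Σ p : ℕ × ℕ, (Q p.1).V)) ∈ M.B v0 := by
      obtain ⟨x1, hx1, y1, hy1, hxy1⟩ := M.adj _ _ h01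
      obtain ⟨x2, hx2, y2, hy2, hxy2⟩ := M.adj _ _ h02
      obtain ⟨b1, rfl⟩ := hin v1 hne1 y1 hy1
      obtain ⟨b2, rfl⟩ := hin v2 hne2 y2 hy2
      rcases join_adj_some (JAdj.symm hxy1) with ⟨rfl, h1⟩ | ⟨a, rfl, _⟩
      · rcases join_adj_some (JAdj.symm hxy2) with ⟨rfl, h2⟩ | ⟨a, rfl, _⟩
        · subst h1; subst h2
          exact absurd (M.disj _ _ _ hy1 hy2) h12
        · exact root_mem (M.cs _) hx2 hv0
      · exact root_mem (M.cs _) hx1 hv0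
    refine ⟨p.1, pull p M.B ?_ M.cs M.disj ?_⟩
    · intro v
      by_cases hv : v = v0
      · subst hv
        exact ⟨_, hroot⟩
      · exact hall v hv
    · -- adjacency with `v0`
      have h0 : ∀ v, K.G.Adj v0 v → ∃ a b,
          (some ⟨p, a⟩ : Option (Σ p : ℕ × ℕ, (Q p.1).V)) ∈ M.B v0 ∧
          (some ⟨p, b⟩ : Option (Σ p : ℕ × ℕ, (Q p.1).V)) ∈ M.B v ∧ (Q p.1).G.Adj a b := by
        intro v hv
        have hne : v ≠ v0 := fun h => K.G.loopless.irrefl _ (h ▸ hv)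
        obtain ⟨x, hx, y, hy, hxy⟩ := M.adj _ _ hv
        obtain ⟨b, rfl⟩ := hin v hne y hy
        rcases join_adj_some (JAdj.symm hxy) with ⟨rfl, h1⟩ | ⟨a, rfl, hab⟩
        · subst h1
          exact absurd (M.disj _ _ _ hy hroot) hne
        · exact ⟨a, b, hx, hy, hab.symm⟩
      intro v w hvw
      by_cases hv : v = v0
      · subst hv
        exact h0 w hvw
      by_cases hw : w = v0
      · subst hw
        obtain ⟨a, b, ha, hb, hab⟩ := h0 v hvw.symm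
        exact ⟨b, a, hb, ha, hab.symm⟩
      obtain ⟨x, hx, y, hy, hxy⟩ := M.adj _ _ hvw
      obtain ⟨a, rfl⟩ := hin v hv x hx
      rcases join_adj_some hxy with ⟨rfl, _⟩ | ⟨b, rfl, hab⟩
      · exact absurd hy (hav w hw)
      · exact ⟨a, b, hx, hy, hab⟩
  · have hav : ∀ v, (none : Option (Σ p : ℕ × ℕ, (Q p.1).V)) ∉ M.B v :=
      fun v hm => hA ⟨v, hm⟩
    obtain ⟨⟨h, hh0, hh⟩, v1, v2, h12, h01, h02⟩ := hK k0
    obtain ⟨z, hz⟩ := M.ne h
    obtain ⟨p, e, rfl⟩ : ∃ p e, z = (some ⟨p, e⟩ : Option (Σ p : ℕ × ℕ, (Q p.1).V)) := by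
      rcases z with _ | ⟨p, e⟩
      · exact absurd hz (hav h)
      · exact ⟨p, e, rfl⟩
    have step : ∀ v w, K.G.Adj v w →
        (∃ a, (some ⟨p, a⟩ : Option (Σ p : ℕ × ℕ, (Q p.1).V)) ∈ M.B v) →
        ∃ a, (some ⟨p, a⟩ : Option (Σ p : ℕ × ℕ, (Q p.1).V)) ∈ M.B w := by
      rintro v w hvw ⟨a, ha⟩
      obtain ⟨x, hx, y, hy, hxy⟩ := M.adj _ _ hvw
      obtain ⟨x', rfl⟩ := comp_const (M.cs _) ha (hav v) x hx
      rcases join_adj_some hxy with ⟨rfl, _⟩ | ⟨y', rfl, _⟩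
      · exact absurd hy (hav w)
      · exact ⟨y', hy⟩
    have hall1 : ∀ v, v ≠ k0 →
        ∃ w, (some ⟨p, w⟩ : Option (Σ p : ℕ × ℕ, (Q p.1).V)) ∈ M.B v := by
      intro v hv
      by_cases hvh : v = h
      · subst hvh
        exact ⟨e, hz⟩
      · exact step h v (hh v hv hvh) ⟨e, hz⟩
    have hne1 : v1 ≠ k0 := fun h => K.G.loopless.irrefl _ (h ▸ h01)
    have hall : ∀ v, ∃ w, (some ⟨p, w⟩ : Option (Σ p : ℕ × ℕ, (Q p.1).V)) ∈ M.B v := by
      intro v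
      by_cases hv : v = k0
      · subst hv
        exact step v1 v h01.symm (hall1 v1 hne1)
      · exact hall1 v hv
    refine ⟨p.1, pull p M.B hall M.cs M.disj ?_⟩
    intro v w hvw
    obtain ⟨x, hx, y, hy, hxy⟩ := M.adj _ _ hvw
    obtain ⟨a, ha⟩ := hall v
    obtain ⟨x', rfl⟩ := comp_const (M.cs _) ha (hav v) x hx
    rcases join_adj_some hxy with ⟨rfl, _⟩ | ⟨y', rfl, hab⟩
    · exact absurd hy (hav w)
    · exact ⟨x', y', hx, hy, hab⟩

/-- One of the joined graphs is a minor of whatever the join is a minor of. -/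
theorem sub_join {P : ℕ → Gr.{u}} {r : ∀ n, (P n).V} {G : Gr.{u}}
    (h : IsMinor (join P r) G) (a : ℕ) : IsMinor (P a) G := by
  refine IsMinor.of_sub (fun v => (some ⟨(a, 0), v⟩ : Option (Σ p : ℕ × ℕ, (P p.1).V)))
    ?_ ?_ h
  · intro v w hvw
    have h3 := Option.some.inj hvw
    simpa using h3
  · intro v w hvw
    exact JAdj.inner (a, 0) v w hvw

end H65.D65
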