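import Pool.Agent.H65.D65.Join

/-! For a class of graphs closed under cones and root joins, well-quasi-ordering
implies better-quasi-ordering. -/

namespace H65.D65

open Relation

universe u

/-- `a` followed by `x`. -/
def consSeq (a : ℕ) (x : ℕ → ℕ) : ℕ → ℕ
  | 0 => a
  | n + 1 => x n

/-- Well-founded trees with leaves in the class of graphs. -/
inductive HT : Type (u + 1)
  | leaf (g : Gr.{u}) : HT
  | node (h : ℕ → HT) : HT

/-- The tree `T` represents the locally constant function `F`. -/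
def Rep : HT.{u} → ((ℕ → ℕ) → Gr.{u}) → Prop
  | .leaf g, F => ∀ x, F x = g
  | .node h, F => ∀ a, Rep (h a) (fun x => F (consSeq a x))

/-- Every locally constant function is represented by a tree. -/
theorem exists_rep (F : (ℕ → ℕ) → Gr.{u})
    (hF : ∀ x : ℕ → ℕ, ∃ n, ∀ y : ℕ → ℕ, (∀ i < n, y i = x i) → F y = F x) :
    ∃ T, Rep T F := by
  by_contra hcon
  have step : ∀ F' : {F' : (ℕ → ℕ) → Gr.{u} // ¬ ∃ T, Rep T F'},
      ∃ a, ¬ ∃ T, Rep T (fun x => F'.1 (consSeq a x)) := by
    rintro ⟨F', hF'⟩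
    by_contra hall
    have hall' : ∀ a, ∃ T, Rep T (fun x => F' (consSeq a x)) := by
      intro a
      by_contra ha
      exact hall ⟨a, ha⟩
    choose h hh using hall'
    exact hF' ⟨.node h, hh⟩
  choose a ha using step
  let S : ℕ → {F' : (ℕ → ℕ) → Gr.{u} // ¬ ∃ T, Rep T F'} :=
    fun n => Nat.rec ⟨F, hcon⟩ (fun _ F' => ⟨fun x => F'.1 (consSeq (a F') x), ha F'⟩) n
  let X : ℕ → ℕ := fun n => a (S n)
  have hS : ∀ n y, (S n).1 y = F (fun i => if i < n then X i else y (i - n)) := by
    intro n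
    induction n with
    | zero => intro y; simp [S]
    | succ n ih =>
      intro y
      have h1 : (S (n + 1)).1 y = (S n).1 (consSeq (X n) y) := rfl
      rw [h1, ih]
      congr 1
      funext i
      by_cases h2 : i < n
      · have h3 : i < n + 1 := by omega
        simp [h2, h3]
      · by_cases h4 : i = n
        · subst h4
          simp [consSeq]
        · have h5 : ¬ i < n + 1 := by omega
          have h6 : i - n = (i - (n + 1)) + 1 := by omega
          simp only [h2, h5, if_false]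
          rw [h6]
          rfl
  obtain ⟨n, hn⟩ := hF X
  refine (S n).2 ⟨.leaf (F X), ?_⟩
  intro y
  rw [hS n y]
  exact hn _ (fun i hi => by simp [hi])

/-- A graph with a root. -/
structure PG : Type (u + 1) where
  g : Gr.{u}
  r : g.V

/-- The graph coding a tree. -/
def Gam : HT.{u} → PG.{u}
  | .leaf g => ⟨cone (cone (cone g)), (none : Option (cone (cone g)).V)⟩
  | .node h => ⟨join (fun n => (Gam (h n)).g) (fun n => (Gam (h n)).r),
      (none : Option (Σ p : ℕ × ℕ, ((Gam (h p.1)).g).V))⟩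

theorem cn_cone (G : Gr.{u}) : Cn (cone G) := by
  have h1 : ∀ x : Option G.V, ReflTransGen (cone G).G.Adj (none : Option G.V) x := by
    rintro (_ | x)
    · exact ReflTransGen.refl
    · exact ReflTransGen.single (cone_adj_none_some G x)
  have h2 : ∀ x : Option G.V, ReflTransGen (cone G).G.Adj x (none : Option G.V) := by
    rintro (_ | x)
    · exact ReflTransGen.refl
    · exact ReflTransGen.single (cone_adj_some_none G x)
  intro x y
  exact (h2 x).trans (h1 y)

theorem cn_join {P : ℕ → Gr.{u}} {r : ∀ n, (P n).V} (hP : ∀ n, Cn (P n)) :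
    Cn (join P r) := by
  have hlift : ∀ (p : ℕ × ℕ) (a b : (P p.1).V), ReflTransGen (P p.1).G.Adj a b →
      ReflTransGen (join P r).G.Adj (some ⟨p, a⟩ : Option (Σ p : ℕ × ℕ, (P p.1).V))
        (some ⟨p, b⟩ : Option (Σ p : ℕ × ℕ, (P p.1).V)) := by
    intro p a b h
    induction h with
    | refl => exact ReflTransGen.refl
    | tail _ hbc ih => exact ih.tail (JAdj.inner p _ _ hbc)
  have h1 : ∀ x : Option (Σ p : ℕ × ℕ, (P p.1).V),
      ReflTransGen (join P r).G.Adj (none : Option (Σ p : ℕ × ℕ, (P p.1).V)) x := by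
    rintro (_ | ⟨p, a⟩)
    · exact ReflTransGen.refl
    · exact (ReflTransGen.single (JAdj.left p)).trans (hlift p _ _ (hP p.1 (r p.1) a))
  have h2 : ∀ x : Option (Σ p : ℕ × ℕ, (P p.1).V),
      ReflTransGen (join P r).G.Adj x (none : Option (Σ p : ℕ × ℕ, (P p.1).V)) := by
    rintro (_ | ⟨p, a⟩)
    · exact ReflTransGen.refl
    · exact (hlift p _ _ (hP p.1 a (r p.1))).trans (ReflTransGen.single (JAdj.right p))
  intro x y
  exact (h2 x).trans (h1 y)

theorem cn_gam (T : HT.{u}) : Cn (Gam T).g := by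
  induction T with
  | leaf g => exact cn_cone _
  | node h ih => exact cn_join ih

theorem hub2_cone3 (g : Gr.{u}) : Hub2 (cone (cone (cone g))) := by
  let V1 := Option g.V
  let V2 := Option V1
  let V3 := Option V2
  have key : ∀ v0 : V3, (∃ h : V3, h ≠ v0 ∧ ∀ v : V3, v ≠ v0 → v ≠ h →
      (cone (cone (cone g))).G.Adj h v) ∧ ∃ v1 v2 : V3, v1 ≠ v2 ∧
        (cone (cone (cone g))).G.Adj v0 v1 ∧ (cone (cone (cone g))).G.Adj v0 v2 := by
    rintro (_ | v0)
    · refine ⟨⟨(some none : V3), (by intro h; cases h), ?_⟩, (some none : V3),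
        (some (some none) : V3), (by intro h; cases h), trivial, trivial⟩
      rintro (_ | _ | v) h1 h2
      · exact absurd rfl h1
      · exact absurd rfl h2
      · trivial
    · refine ⟨⟨(none : V3), (by intro h; cases h), ?_⟩, ?_⟩
      · rintro (_ | v) h1 h2
        · exact absurd rfl h2
        · trivial
      · rcases v0 with _ | v0
        · exact ⟨(none : V3), (some (some none) : V3), (by intro h; cases h), trivial, trivial⟩
        · exact ⟨(none : V3), (some none : V3), (by intro h; cases h), trivial, trivial⟩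
  exact key

/-- The main step: a minor relation between coding graphs can be followed down. -/
theorem lift (T : HT.{u}) : ∀ (U : HT.{u}) (A B : (ℕ → ℕ) → Gr.{u}), Rep T A → Rep U B →
    IsMinor (Gam T).g (Gam U).g → ∀ d : ℕ, ∃ y, IsMinor (A (consSeq d y)) (B y) := by
  induction T with
  | leaf g =>
    intro U
    induction U with
    | leaf g' =>
      intro A B hA hB h d
      refine ⟨fun _ => 0, ?_⟩
      rw [hA, hB]
      exact IsMinor.of_cone (IsMinor.of_cone (IsMinor.of_cone h))
    | node k ih =>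
      intro A B hA hB h d
      obtain ⟨b, hb⟩ := hub_join (hub2_cone3 g) (none : Option (cone (cone g)).V) h
      obtain ⟨y, hy⟩ := ih b A (fun x => B (consSeq b x)) hA (hB b) hb 0
      refine ⟨consSeq b y, ?_⟩
      rw [hA] at hy ⊢
      exact hy
  | node k ih =>
    intro U A B hA hB h d
    cases U with
    | leaf g =>
      have h1 : IsMinor (Gam (k d)).g (Gam (HT.leaf g)).g := sub_join h d
      obtain ⟨y, hy⟩ := ih d (HT.leaf g) (fun x => A (consSeq d x)) B (hA d) hB h1 0
      refine ⟨consSeq 0 y, ?_⟩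
      rw [hB] at hy ⊢
      exact hy
    | node l =>
      obtain ⟨b, hb⟩ := join_join (fun n => cn_gam (k n)) h d
      obtain ⟨y, hy⟩ := ih d (l b) (fun x => A (consSeq d x)) (fun x => B (consSeq b x))
        (hA d) (hB b) hb b
      exact ⟨consSeq b y, hy⟩

/-- Increasing sequences from their gaps. -/
def dec (x : ℕ → ℕ) : ℕ → ℕ
  | 0 => x 0
  | n + 1 => dec x n + x (n + 1) + 1

theorem dec_strictMono (x : ℕ → ℕ) : StrictMono (dec x) := by
  apply strictMono_nat_of_lt_succ
  intro n
  show dec x n < dec x n + x (n + 1) + 1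
  omega

theorem dec_congr {x y : ℕ → ℕ} {n : ℕ} (h : ∀ i < n, y i = x i) :
    ∀ i < n, dec y i = dec x i := by
  intro i
  induction i with
  | zero => intro hi; exact h 0 hi
  | succ i ih =>
    intro hi
    show dec y i + y (i + 1) + 1 = dec x i + x (i + 1) + 1
    rw [ih (by omega), h (i + 1) hi]

theorem dec_tail (m d : ℕ) (y : ℕ → ℕ) (n : ℕ) :
    dec (consSeq m (consSeq d y)) (n + 1) = dec (consSeq (m + d + 1) y) n := by
  induction n with
  | zero => rfl
  | succ n ih =>
    show dec (consSeq m (consSeq d y)) (n + 1) + (consSeq m (consSeq d y)) (n + 2) + 1 =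
      dec (consSeq (m + d + 1) y) n + (consSeq (m + d + 1) y) (n + 1) + 1
    rw [ih]
    rfl

theorem gam_mem {C : Gr.{u} → Prop} (hC : Closed C) (T : HT.{u}) :
    ∀ F : (ℕ → ℕ) → Gr.{u}, Rep T F → (∀ x, C (F x)) → C (Gam T).g := by
  induction T with
  | leaf g =>
    intro F hF hx
    have h0 := hx (fun _ => 0)
    rw [hF] at h0
    exact hC.cone _ (hC.cone _ (hC.cone _ h0))
  | node k ih =>
    intro F hF hx
    exact hC.join _ _ (fun n => ih n _ (hF n) (fun x => hx _))

theorem bqo_of_wqo {C : Gr.{u} → Prop} (hC : Closed C) (h : WQO C) : BQO C := by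
  intro f hf hloc
  let F : (ℕ → ℕ) → Gr.{u} := fun x => f ⟨dec x, dec_strictMono x⟩
  have hF : ∀ x : ℕ → ℕ, ∃ n, ∀ y : ℕ → ℕ, (∀ i < n, y i = x i) → F y = F x := by
    intro x
    obtain ⟨n, hn⟩ := hloc ⟨dec x, dec_strictMono x⟩
    exact ⟨n, fun y hy => hn ⟨dec y, dec_strictMono y⟩ (dec_congr hy)⟩
  have hrep : ∀ m, ∃ T, Rep T (fun x => F (consSeq m x)) := by
    intro m
    apply exists_rep
    intro x
    obtain ⟨n, hn⟩ := hF (consSeq m x)
    refine ⟨n, fun y hy => hn _ ?_⟩
    intro i hi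
    cases i with
    | zero => rfl
    | succ i => exact hy i (by omega)
  choose T hT using hrep
  obtain ⟨m, n, hmn, hmin⟩ := h (fun m => (Gam (T m)).g)
    (fun m => gam_mem hC (T m) _ (hT m) (fun x => hf _))
  obtain ⟨y, hy⟩ := lift (T m) (T n) _ _ (hT m) (hT n) hmin (n - m - 1)
  refine ⟨⟨dec (consSeq m (consSeq (n - m - 1) y)), dec_strictMono _⟩, ?_⟩
  have h1 : InfSet.tail ⟨dec (consSeq m (consSeq (n - m - 1) y)), dec_strictMono _⟩ =
      ⟨dec (consSeq n y), dec_strictMono _⟩ := by
    apply Subtype.ext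
    funext i
    show dec (consSeq m (consSeq (n - m - 1) y)) (i + 1) = dec (consSeq n y) i
    rw [dec_tail]
    have : m + (n - m - 1) + 1 = n := by omega
    rw [this]
  rw [h1]
  exact hy

theorem wqo_of_bqo {C : Gr.{u} → Prop} (h : BQO C) : WQO C := by
  intro G hG
  obtain ⟨X, hX⟩ := h (fun X => G (X.1 0)) (fun X => hG _)
    (fun X => ⟨1, fun Y hY => congrArg G (hY 0 (by omega))⟩)
  exact ⟨X.1 0, X.1 1, X.2 (by omega), hX⟩

theorem wqo_iff_bqo {C : Gr.{u} → Prop} (hC : Closed C) : WQO C ↔ BQO C :=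
  ⟨bqo_of_wqo hC, wqo_of_bqo⟩

end H65.D65
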