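import Pool.Agent.H65.D65.Defs

/-! Cones, root joins and what minors of them look like. -/

namespace H65.D65

open Relation

universe u

/-- Connectedness of a vertex set through steps inside it. -/
def Cs (G : Gr.{u}) (S : Set G.V) : Prop :=
  ∀ x ∈ S, ∀ y ∈ S, ReflTransGen (fun a b => G.G.Adj a b ∧ b ∈ S) x y

/-- The whole graph is connected. -/
def Cn (G : Gr.{u}) : Prop := ∀ x y : G.V, ReflTransGen G.G.Adj x y

theorem cs_of_connected {G : Gr.{u}} {S : Set G.V} (h : (G.G.induce S).Connected) :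
    Cs G S := by
  intro x hx y hy
  have h1 := h.preconnected ⟨x, hx⟩ ⟨y, hy⟩
  rw [SimpleGraph.reachable_iff_reflTransGen] at h1
  have h2 : ∀ z : S, ReflTransGen (G.G.induce S).Adj ⟨x, hx⟩ z →
      ReflTransGen (fun a b => G.G.Adj a b ∧ b ∈ S) x z.1 := by
    intro z hz
    induction hz with
    | refl => exact ReflTransGen.refl
    | tail _ hbc ih => exact ih.tail ⟨hbc, Subtype.coe_prop _⟩
  exact h2 _ h1

theorem connected_of_cs {G : Gr.{u}} {S : Set G.V} (hne : S.Nonempty) (h : Cs G S) :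
    (G.G.induce S).Connected := by
  have hp : (G.G.induce S).Preconnected := by
    rintro ⟨x, hx⟩ ⟨y, hy⟩
    have h1 := h x hx y hy
    have h2 : ∀ z, ReflTransGen (fun a b => G.G.Adj a b ∧ b ∈ S) x z →
        ∃ hz : z ∈ S, (G.G.induce S).Reachable ⟨x, hx⟩ ⟨z, hz⟩ := by
      intro z hz
      induction hz with
      | refl => exact ⟨hx, SimpleGraph.Reachable.refl _⟩
      | tail _ hbc ih =>
        obtain ⟨hb, hr⟩ := ih
        exact ⟨hbc.2, hr.trans (SimpleGraph.Adj.reachable (by exact hbc.1))⟩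
    exact (h2 y h1).2
  have : Nonempty S := hne.to_subtype
  exact ⟨hp⟩

/-- A convenient form of the minor relation. -/
structure Model (H G : Gr.{u}) where
  B : H.V → Set G.V
  ne : ∀ h, (B h).Nonempty
  cs : ∀ h, Cs G (B h)
  disj : ∀ h h' x, x ∈ B h → x ∈ B h' → h = h'
  adj : ∀ h h', H.G.Adj h h' → ∃ x ∈ B h, ∃ y ∈ B h', G.G.Adj x y

theorem isMinor_iff (H G : Gr.{u}) : IsMinor H G ↔ Nonempty (Model H G) := by
  constructor
  · rintro ⟨B, h1, h2, h3, h4⟩
    refine ⟨⟨B, h1, fun h => cs_of_connected (h2 h), ?_, h4⟩⟩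
    intro h h' x hx hx'
    by_contra hne
    exact Set.disjoint_left.1 (h3 h h' hne) hx hx'
  · rintro ⟨M⟩
    refine ⟨M.B, M.ne, fun h => connected_of_cs (M.ne h) (M.cs h), ?_, M.adj⟩
    intro h h' hne
    rw [Set.disjoint_left]
    intro x hx hx'
    exact hne (M.disj h h' x hx hx')

/-- Restriction of a model to a subgraph. -/
theorem IsMinor.of_sub {H K G : Gr.{u}} (φ : H.V → K.V) (hφ : Function.Injective φ)
    (ha : ∀ x y, H.G.Adj x y → K.G.Adj (φ x) (φ y)) (h : IsMinor K G) : IsMinor H G := by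
  rw [isMinor_iff] at *
  obtain ⟨M⟩ := h
  exact ⟨⟨fun v => M.B (φ v), fun v => M.ne _, fun v => M.cs _,
    fun v w x hv hw => hφ (M.disj _ _ x hv hw), fun v w hvw => M.adj _ _ (ha v w hvw)⟩⟩

@[simp] theorem cone_adj_none_some (G : Gr.{u}) (a : G.V) :
    (cone G).G.Adj (none : Option G.V) (some a : Option G.V) := trivial

@[simp] theorem cone_adj_some_none (G : Gr.{u}) (a : G.V) :
    (cone G).G.Adj (some a : Option G.V) (none : Option G.V) := trivial

theorem cone_adj_some_some (G : Gr.{u}) (a b : G.V) :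
    (cone G).G.Adj (some a : Option G.V) (some b : Option G.V) ↔ G.G.Adj a b := Iff.rfl

/-- A set of the cone avoiding the new vertex. -/
theorem cs_pre_cone {G : Gr.{u}} {S : Set (Option G.V)} (hS : none ∉ S)
    (h : Cs (cone G) S) : Cs G {v | some v ∈ S} := by
  intro x hx y hy
  have h1 := h (some x) hx (some y) hy
  have h2 : ∀ z : Option G.V, ReflTransGen (fun a b => (cone G).G.Adj a b ∧ b ∈ S) (some x) z →
      ∃ w, z = some w ∧ ReflTransGen (fun a b => G.G.Adj a b ∧ b ∈ {v | some v ∈ S}) x w := by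
    intro z hz
    induction hz with
    | refl => exact ⟨x, rfl, ReflTransGen.refl⟩
    | @tail b c _ hbc ih =>
      obtain ⟨w, rfl, hw⟩ := ih
      rcases c with _ | c
      · exact absurd hbc.2 hS
      · exact ⟨c, rfl, hw.tail ⟨hbc.1, hbc.2⟩⟩
  obtain ⟨w, hw, h3⟩ := h2 _ h1
  obtain rfl : y = w := Option.some.inj hw
  exact h3

/-- Adding a dominating vertex reflects the minor relation. -/
theorem IsMinor.of_cone {H G : Gr.{u}} (h : IsMinor (cone H) (cone G)) : IsMinor H G := by
  classical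
  rw [isMinor_iff] at *
  obtain ⟨M⟩ := h
  have key : ∀ C : H.V → Option H.V, (∀ h h', C h = C h' → h = h') →
      (∀ h, (none : Option G.V) ∉ M.B (C h)) →
      (∀ h h', H.G.Adj h h' → (cone H).G.Adj (C h) (C h')) → Nonempty (Model H G) := by
    intro C hC hn hadj
    refine ⟨⟨fun h => {v | some v ∈ M.B (C h)}, ?_, ?_, ?_, ?_⟩⟩
    · intro h
      obtain ⟨x, hx⟩ := M.ne (C h)
      rcases x with _ | x
      · exact absurd hx (hn h)
      · exact ⟨x, hx⟩
    · intro h
      exact cs_pre_cone (hn h) (M.cs _)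
    · intro h h' x hx hx'
      exact hC _ _ (M.disj _ _ _ hx hx')
    · intro h h' hh
      obtain ⟨x, hx, y, hy, hxy⟩ := M.adj _ _ (hadj h h' hh)
      rcases x with _ | x
      · exact absurd hx (hn h)
      rcases y with _ | y
      · exact absurd hy (hn h')
      exact ⟨x, hx, y, hy, hxy⟩
  by_cases hc : ∃ w : H.V, (none : Option G.V) ∈ M.B (some w)
  · obtain ⟨w, hw⟩ := hc
    refine key (fun h => if h = w then none else some h) ?_ ?_ ?_
    · intro h h' hh
      by_cases h1 : h = w <;> by_cases h2 : h' = w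
      · rw [h1, h2]
      · simp [h1, h2] at hh
      · simp [h1, h2] at hh
      · simpa [h1, h2] using hh
    · intro h
      by_cases h1 : h = w
      · simp only [h1, if_true]
        intro hmem
        have := M.disj _ _ _ hmem hw
        cases this
      · simp only [h1, if_false]
        intro hmem
        have := M.disj _ _ _ hmem hw
        exact h1 (Option.some.inj this)
    · intro h h' hh
      by_cases h1 : h = w <;> by_cases h2 : h' = w
      · subst h1; subst h2
        exact absurd hh (H.G.loopless.irrefl _)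
      · simp [h1, h2]
      · simp [h1, h2]
      · simp only [h1, h2, if_false]
        exact hh
  · exact key (fun h => some h) (fun h h' hh => Option.some.inj hh)
      (fun h hm => hc ⟨h, hm⟩) (fun h h' hh => hh)

theorem join_adj_some {P : ℕ → Gr.{u}} {r : ∀ n, (P n).V} {p : ℕ × ℕ} {a : (P p.1).V}
    {y : Option (Σ p : ℕ × ℕ, (P p.1).V)} (h : JAdj P r (some ⟨p, a⟩) y) :
    (y = none ∧ a = r p.1) ∨ ∃ b, y = some ⟨p, b⟩ ∧ (P p.1).G.Adj a b := by
  cases h with
  | right p => exact Or.inl ⟨rfl, rfl⟩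
  | inner p a b h => exact Or.inr ⟨b, rfl, h⟩

end H65.D65
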